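import Pool.Agent.Helper66.FD.Loc

/-!
The norm of a term on the torus is the norm on the box.
-/

set_option autoImplicit false
set_option linter.unusedSectionVars false

open scoped BigOperators Matrix ComplexConjugate ComplexOrder
open Finset Pool.Agent.TH235.PP Pool.Agent.Results.MP_953b23_mp.OverlapBoosting
  Pool.Agent.Helper99.PE

namespace Pool.Agent.Helper66.FD

variable {L d R : ℕ} [NeZero L]

theorem sh_inj (hR : R ≤ L) (u : Site L) {x y : Fin R × Fin R} (h : sh u x = sh u y) : x = y := by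
  unfold sh at h
  rw [Prod.mk.injEq] at h
  obtain ⟨h1, h2⟩ := h
  have h3 := add_left_cancel h1
  have h4 := add_left_cancel h2
  rw [ZMod.natCast_eq_natCast_iff'] at h3 h4
  rw [Nat.mod_eq_of_lt (x.1.2.trans_le hR), Nat.mod_eq_of_lt (y.1.2.trans_le hR)] at h3
  rw [Nat.mod_eq_of_lt (x.2.2.trans_le hR), Nat.mod_eq_of_lt (y.2.2.trans_le hR)] at h4
  exact Prod.ext (Fin.ext h3) (Fin.ext h4)

open Classical in
/-- the configuration which is `x` on the box at `u` and `s` elsewhere -/
noncomputable def upd (u : Site L) (s : Site L → Fin d) (x : Fin R × Fin R → Fin d) :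
    Site L → Fin d := fun w => if h : ∃ i, sh u i = w then x h.choose else s w

theorem upd_in (hR : R ≤ L) (u : Site L) (s : Site L → Fin d) (x : Fin R × Fin R → Fin d)
    (i : Fin R × Fin R) : upd u s x (sh u i) = x i := by
  unfold upd
  have h : ∃ j, sh u j = sh u i := ⟨i, rfl⟩
  rw [dif_pos h]
  congr 1
  exact sh_inj hR u h.choose_spec

theorem upd_out (u : Site L) (s : Site L → Fin d) (x : Fin R × Fin R → Fin d) (w : Site L)
    (hw : ∀ i : Fin R × Fin R, sh u i ≠ w) : upd u s x w = s w := by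
  unfold upd
  rw [dif_neg]
  rintro ⟨i, hi⟩
  exact hw i hi

theorem upd_box (hR : R ≤ L) (u : Site L) (s : Site L → Fin d) (x : Fin R × Fin R → Fin d) :
    (fun i => upd u s x (sh u i)) = x := funext fun i => upd_in hR u s x i

theorem upd_eq (hR : R ≤ L) (u : Site L) (s t : Site L → Fin d)
    (h : ∀ w, (∀ i : Fin R × Fin R, sh u i ≠ w) → s w = t w) :
    upd u s (fun i : Fin R × Fin R => t (sh u i)) = t := by
  funext w
  by_cases hw : ∃ i : Fin R × Fin R, sh u i = w
  · obtain ⟨i, rfl⟩ := hw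
    exact upd_in hR u s _ i
  · push Not at hw
    rw [upd_out u s _ w hw, h w hw]

theorem upd_upd (hR : R ≤ L) (u : Site L) (s : Site L → Fin d) (x y : Fin R × Fin R → Fin d) :
    upd u (upd u s y) x = upd u s x := by
  funext w
  by_cases hw : ∃ i : Fin R × Fin R, sh u i = w
  · obtain ⟨i, rfl⟩ := hw
    rw [upd_in hR, upd_in hR]
  · push Not at hw
    rw [upd_out _ _ _ w hw, upd_out _ _ _ w hw, upd_out _ _ _ w hw]

theorem term_upd (hR : R ≤ L) (A : BoxOp d R) (u : Site L) (v : (Site L → Fin d) → ℂ)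
    (s : Site L → Fin d) (y : Fin R × Fin R → Fin d) :
    (term A u *ᵥ v) (upd u s y) = (A *ᵥ fun x => v (upd u s x)) y := by
  classical
  rw [term_mulVec, ← Finset.sum_filter]
  change _ = ∑ x, A y x * v (upd u s x)
  refine Finset.sum_bij' (i := fun t _ => fun i => t (sh u i)) (j := fun x _ => upd u s x)
    ?_ ?_ ?_ ?_ ?_
  · intro t _; exact mem_univ _
  · intro x _
    rw [mem_filter]
    refine ⟨mem_univ _, fun w hw => ?_⟩
    rw [upd_out _ _ _ w hw, upd_out _ _ _ w hw]
  · intro t ht
    rw [mem_filter] at ht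
    apply upd_eq hR
    intro w hw
    rw [← ht.2 w hw, upd_out _ _ _ w hw]
  · intro x _
    exact upd_box hR u s x
  · intro t ht
    rw [mem_filter] at ht
    rw [upd_box hR]
    congr 2
    symm
    apply upd_eq hR
    intro w hw
    rw [← ht.2 w hw, upd_out _ _ _ w hw]

theorem sum_upd (hR : R ≤ L) (u : Site L) (F : (Site L → Fin d) → ℝ) :
    ∑ s : Site L → Fin d, ∑ y : Fin R × Fin R → Fin d, F (upd u s y) =
      (Fintype.card (Fin R × Fin R → Fin d) : ℝ) * ∑ s, F s := by
  classical
  rw [← Fintype.sum_prod_type']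
  have h1 : ∑ p : (Site L → Fin d) × (Fin R × Fin R → Fin d), F (upd u p.1 p.2) =
      ∑ p : (Site L → Fin d) × (Fin R × Fin R → Fin d), F p.1 := by
    refine Fintype.sum_bijective
      (fun p : (Site L → Fin d) × (Fin R × Fin R → Fin d) =>
        (upd u p.1 p.2, fun i : Fin R × Fin R => p.1 (sh u i))) ?_ _ _ (fun _ => rfl)
    have hinv : ∀ p : (Site L → Fin d) × (Fin R × Fin R → Fin d),
        (fun p : (Site L → Fin d) × (Fin R × Fin R → Fin d) =>
          (upd u p.1 p.2, fun i : Fin R × Fin R => p.1 (sh u i)))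
        ((fun p : (Site L → Fin d) × (Fin R × Fin R → Fin d) =>
          (upd u p.1 p.2, fun i : Fin R × Fin R => p.1 (sh u i))) p) = p := by
      rintro ⟨s, y⟩
      simp only [upd_upd hR, upd_box hR]
      rw [upd_eq hR u s s (fun _ _ => rfl)]
    exact (Function.Involutive.bijective hinv)
  rw [h1, Fintype.sum_prod_type, Finset.mul_sum]
  refine Finset.sum_congr rfl fun s _ => ?_
  simp only []
  rw [Finset.sum_const, card_univ, nsmul_eq_mul]

theorem normSq_box (hR : R ≤ L) (u : Site L) (v : (Site L → Fin d) → ℂ) :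
    ∑ s : Site L → Fin d, normSq (fun x : Fin R × Fin R → Fin d => v (upd u s x)) =
      (Fintype.card (Fin R × Fin R → Fin d) : ℝ) * normSq v :=
  sum_upd hR u fun s => ‖v s‖ ^ 2

theorem normSq_term (hR : R ≤ L) (A : BoxOp d R) (u : Site L) (v : (Site L → Fin d) → ℂ) :
    (Fintype.card (Fin R × Fin R → Fin d) : ℝ) * normSq (term A u *ᵥ v) =
      ∑ s : Site L → Fin d, normSq (A *ᵥ fun x => v (upd u s x)) := by
  unfold normSq
  rw [← sum_upd hR u]
  simp only [term_upd hR]

theorem term_bound (hR : R ≤ L) {q : ℕ} {A B : Fin q → BoxOp d R} (hn : Normalised A B)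
    (u : Site L) (v : (Site L → Fin d) → ℂ) :
    ∑ j, (normSq (term (A j) u *ᵥ v) + normSq (term (B j) u *ᵥ v)) ≤ normSq v := by
  classical
  rcases isEmpty_or_nonempty (Fin R × Fin R → Fin d) with he | hne
  · have h0 : IsEmpty (Site L → Fin d) := ⟨fun s => he.false fun x => s (sh u x)⟩
    unfold normSq
    simp
  · have hc : (0 : ℝ) < (Fintype.card (Fin R × Fin R → Fin d) : ℝ) := by
      exact_mod_cast Fintype.card_pos
    refine le_of_mul_le_mul_left ?_ hc
    rw [Finset.mul_sum]
    simp only [mul_add, normSq_term hR]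
    rw [← normSq_box hR u v]
    simp only [← Finset.sum_add_distrib]
    rw [Finset.sum_comm]
    refine Finset.sum_le_sum fun s _ => ?_
    exact hn _

end Pool.Agent.Helper66.FD
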