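import Pool.Agent.Helper99.PE.Crit

/-!
Vectors of operators, superoperators and local Markovian dynamics on the torus.
-/

set_option autoImplicit false
set_option linter.unusedSectionVars false

open scoped BigOperators Matrix ComplexConjugate ComplexOrder
open Finset Pool.Agent.TH235.PP Pool.Agent.Results.MP_953b23_mp.OverlapBoosting
  Pool.Agent.Helper99.PE

namespace Pool.Agent.Helper66.FD

/-- The vector of an operator `X` on the `L × L` torus: a configuration of the doubled system, with
local dimension `d * d`, is a pair of configurations with local dimension `d`. -/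
def vec {L d : ℕ} (X : TorOp d L) : (Site L → Fin (d * d)) → ℂ :=
  fun s => X (fun v => (finProdFinEquiv.symm (s v)).1) (fun v => (finProdFinEquiv.symm (s v)).2)

/-- The superoperator `X ↦ A X B^*` on the operators of the `R × R` box, as a matrix on the doubled
box. -/
def sop {d R : ℕ} (A B : BoxOp d R) : BoxOp (d * d) R := fun s t =>
  A (fun x => (finProdFinEquiv.symm (s x)).1) (fun x => (finProdFinEquiv.symm (t x)).1) *
    conj (B (fun x => (finProdFinEquiv.symm (s x)).2) (fun x => (finProdFinEquiv.symm (t x)).2))

/-- The generator of a translation invariant dynamics on the operators of the torus: the sum of the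
translates of the superoperator `X ↦ ∑ j, A j X (B j)^*` of the `R × R` box. -/
noncomputable def gen {d R q : ℕ} (A B : Fin q → BoxOp d R) (L : ℕ) [NeZero L] :
    TorOp (d * d) L := ham (∑ j, sop (A j) (B j)) L

/-- The terms are normalised: `∑ j, ((A j)^* A j + (B j)^* B j) ≤ 1`. -/
def Normalised {d R q : ℕ} (A B : Fin q → BoxOp d R) : Prop :=
  ∀ x : (Fin R × Fin R → Fin d) → ℂ, ∑ j, (normSq (A j *ᵥ x) + normSq (B j *ᵥ x)) ≤ normSq x

/-- The generator `G` defines a semigroup of positive trace preserving maps. -/
def IsMarkov {d L : ℕ} [NeZero L] (G : TorOp (d * d) L) : Prop :=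
  ∀ s : ℝ, 0 ≤ s → ∀ X : TorOp d L, X.PosSemidef →
    ∃ Y : TorOp d L, Y.PosSemidef ∧ Y.trace = X.trace ∧
      vec Y = NormedSpace.exp ((s : ℂ) • G) *ᵥ vec X

/-- `Evolution R m T X Y`: the operator `X` evolves to `Y` in time `T` under a piecewise constant
local Markovian dynamics of range `R` with `m` pieces. -/
inductive Evolution {d L : ℕ} [NeZero L] (R : ℕ) : ℕ → ℝ → TorOp d L → TorOp d L → Prop
  | refl (X : TorOp d L) : Evolution R 0 0 X X
  | step {m : ℕ} {T : ℝ} {X Y Z : TorOp d L} (q : ℕ) (A B : Fin q → BoxOp d R) (s : ℝ) :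
      Evolution R m T X Y → Normalised A B → IsMarkov (gen A B L) → 0 ≤ s →
      vec Z = NormedSpace.exp ((s : ℂ) • gen A B L) *ᵥ vec Y → Evolution R (m + 1) (T + s) X Z

end Pool.Agent.Helper66.FD
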