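import Pool.Agent.Helper66.FD.Box

/-!
The functionals on operators which are bounded by the trace on positive operators.
-/

set_option autoImplicit false
set_option linter.unusedSectionVars false

open scoped BigOperators Matrix ComplexConjugate ComplexOrder
open Finset Pool.Agent.TH235.PP Pool.Agent.Results.MP_953b23_mp.OverlapBoosting
  Pool.Agent.Helper99.PE

namespace Pool.Agent.Helper66.FD

variable {L d R : ℕ} [NeZero L]

/-- the functionals bounded by the trace on the positive operators of rank one -/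
def Dual (d L : ℕ) [NeZero L] : Set ((Site L → Fin (d * d)) → ℂ) :=
  {b | ∀ v : (Site L → Fin d) → ℂ, ‖b ⬝ᵥ rk v v‖ ≤ normSq v}

theorem zero_mem_dual : (0 : (Site L → Fin (d * d)) → ℂ) ∈ Dual d L := by
  intro v
  rw [zero_dotProduct, norm_zero]
  unfold normSq
  positivity

theorem rk_polar (v w : (Site L → Fin d) → ℂ) :
    (4 : ℂ) • rk v w = rk (v + w) (v + w) - rk (v - w) (v - w) +
      Complex.I • rk (v + Complex.I • w) (v + Complex.I • w) -
      Complex.I • rk (v - Complex.I • w) (v - Complex.I • w) := by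
  apply ext_double
  intro s t
  simp only [Pi.smul_apply, Pi.add_apply, Pi.sub_apply, rk_apply, smul_eq_mul, map_add, map_sub,
    map_mul, Complex.conj_I]
  have hI : Complex.I * Complex.I = -1 := Complex.I_mul_I
  linear_combination (2 * v s * conj (w t) - 2 * w s * conj (v t)) * hI

theorem normSq_par (v w : (Site L → Fin d) → ℂ) :
    normSq (v + w) + normSq (v - w) = 2 * (normSq v + normSq w) := by
  unfold normSq
  rw [← Finset.sum_add_distrib, ← Finset.sum_add_distrib, Finset.mul_sum]
  refine Finset.sum_congr rfl fun s _ => ?_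
  simp only [Pi.add_apply, Pi.sub_apply]
  have := parallelogram_law_with_norm ℝ (v s) (w s)
  nlinarith [this]

theorem normSq_I (w : (Site L → Fin d) → ℂ) : normSq (Complex.I • w) = normSq w := by
  unfold normSq
  simp

theorem dual_polar {b : (Site L → Fin (d * d)) → ℂ} (hb : b ∈ Dual d L)
    (v w : (Site L → Fin d) → ℂ) : ‖b ⬝ᵥ rk v w‖ ≤ normSq v + normSq w := by
  have h1 : (4 : ℂ) * (b ⬝ᵥ rk v w) = b ⬝ᵥ rk (v + w) (v + w) - b ⬝ᵥ rk (v - w) (v - w) +
      Complex.I * (b ⬝ᵥ rk (v + Complex.I • w) (v + Complex.I • w)) -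
      Complex.I * (b ⬝ᵥ rk (v - Complex.I • w) (v - Complex.I • w)) := by
    rw [← smul_eq_mul, ← dotProduct_smul, rk_polar]
    simp only [dotProduct_sub, dotProduct_add, dotProduct_smul, smul_eq_mul]
  have h2 : 4 * ‖b ⬝ᵥ rk v w‖ ≤ normSq (v + w) + normSq (v - w) +
      normSq (v + Complex.I • w) + normSq (v - Complex.I • w) := by
    have h3 : ‖(4 : ℂ) * (b ⬝ᵥ rk v w)‖ = 4 * ‖b ⬝ᵥ rk v w‖ := by
      rw [norm_mul]; norm_num
    rw [← h3, h1]
    refine (norm_sub_le _ _).trans (add_le_add ((norm_add_le _ _).trans (add_le_add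
      ((norm_sub_le _ _).trans (add_le_add (hb _) (hb _))) ?_)) ?_)
    · rw [norm_mul, Complex.norm_I, one_mul]; exact hb _
    · rw [norm_mul, Complex.norm_I, one_mul]; exact hb _
  have h4 := normSq_par v w
  have h5 := normSq_par v (Complex.I • w)
  rw [normSq_I] at h5
  linarith

theorem dual_entry {b : (Site L → Fin (d * d)) → ℂ} (hb : b ∈ Dual d L)
    (s : Site L → Fin (d * d)) : ‖b s‖ ≤ 2 := by
  classical
  set s1 : Site L → Fin d := fun x => (finProdFinEquiv.symm (s x)).1 with hs1
  set s2 : Site L → Fin d := fun x => (finProdFinEquiv.symm (s x)).2 with hs2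
  have hs : (fun x => finProdFinEquiv (s1 x, s2 x)) = s := by
    funext x
    exact Equiv.apply_symm_apply finProdFinEquiv (s x)
  have h1 : rk (Pi.single s1 1) (Pi.single s2 1) = (Pi.single s 1 : (Site L → Fin (d * d)) → ℂ) := by
    apply ext_double
    intro a c
    have hiff : (fun x => finProdFinEquiv (a x, c x)) = s ↔ a = s1 ∧ c = s2 := by
      constructor
      · intro h3
        refine ⟨funext fun x => ?_, funext fun x => ?_⟩
        · have h4 := congrFun h3 x
          rw [← congrFun hs x] at h4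
          exact (Prod.mk.injEq _ _ _ _ ▸ finProdFinEquiv.injective h4).1
        · have h4 := congrFun h3 x
          rw [← congrFun hs x] at h4
          exact (Prod.mk.injEq _ _ _ _ ▸ finProdFinEquiv.injective h4).2
      · rintro ⟨rfl, rfl⟩
        exact hs
    rw [rk_apply, Pi.single_apply, Pi.single_apply, Pi.single_apply]
    by_cases h3 : a = s1
    · by_cases h4 : c = s2
      · rw [if_pos h3, if_pos h4, if_pos (hiff.2 ⟨h3, h4⟩)]
        simp
      · rw [if_neg h4, if_neg (fun h => h4 (hiff.1 h).2)]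
        simp
    · rw [if_neg h3, if_neg (fun h => h3 (hiff.1 h).1)]
      simp
  have h2 := dual_polar hb (Pi.single s1 1) (Pi.single s2 1)
  rw [h1] at h2
  have h3 : b ⬝ᵥ (Pi.single s 1 : (Site L → Fin (d * d)) → ℂ) = b s := by
    rw [dotProduct_single, mul_one]
  have h4 : ∀ a : Site L → Fin d, normSq (Pi.single a 1 : (Site L → Fin d) → ℂ) = 1 := by
    intro a
    unfold normSq
    rw [Finset.sum_eq_single a]
    · simp
    · intro c _ hc
      rw [Pi.single_eq_of_ne hc]
      simp
    · intro h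
      exact absurd (mem_univ _) h
  rw [h3, h4, h4] at h2
  linarith

theorem dual_term (hR : R ≤ L) {q : ℕ} {A B : Fin q → BoxOp d R} (hn : Normalised A B)
    (u : Site L) {b : (Site L → Fin (d * d)) → ℂ} (hb : b ∈ Dual d L) :
    b ᵥ* term (∑ j, sop (A j) (B j)) u ∈ Dual d L := by
  intro v
  rw [← Matrix.dotProduct_mulVec, term_sum, Matrix.sum_mulVec, dotProduct_sum]
  refine (norm_sum_le _ _).trans ((Finset.sum_le_sum fun j _ => ?_).trans (term_bound hR hn u v))
  rw [term_sop_rk]
  exact dual_polar hb _ _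

open scoped MatrixOrder in
theorem exists_sq {X : TorOp d L} (hX : X.PosSemidef) : ∃ B : TorOp d L, X = Bᴴ * B := by
  classical
  obtain ⟨B, hB, -, h⟩ :=
    CFC.exists_sqrt_of_isSelfAdjoint_of_quasispectrumRestricts hX.isHermitian
      (QuasispectrumRestricts.nnreal_of_nonneg hX.nonneg)
  refine ⟨B, ?_⟩
  have h1 : Bᴴ = B := hB.star_eq
  rw [h1]
  exact h.symm

theorem dual_pos {b : (Site L → Fin (d * d)) → ℂ} (hb : b ∈ Dual d L) {X : TorOp d L}
    (hX : X.PosSemidef) : ‖b ⬝ᵥ vec X‖ ≤ X.trace.re := by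
  classical
  obtain ⟨B, hB⟩ := exists_sq hX
  have h1 : vec X = ∑ k, rk (fun a => conj (B k a)) (fun a => conj (B k a)) := by
    apply ext_double
    intro s t
    rw [Finset.sum_apply]
    simp only [rk_apply]
    unfold vec
    simp only [Equiv.symm_apply_apply]
    rw [hB, Matrix.mul_apply]
    refine Finset.sum_congr rfl fun k _ => ?_
    rw [Matrix.conjTranspose_apply]
    simp
  have h2 : X.trace.re = ∑ k, normSq (fun a => conj (B k a)) := by
    rw [hB, Matrix.trace, Complex.re_sum]
    unfold normSq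
    rw [Finset.sum_comm]
    refine Finset.sum_congr rfl fun s _ => ?_
    rw [Matrix.diag_apply, Matrix.mul_apply, Complex.re_sum]
    refine Finset.sum_congr rfl fun k _ => ?_
    rw [Matrix.conjTranspose_apply, Complex.star_def, ← Complex.normSq_eq_conj_mul_self,
      Complex.ofReal_re, Complex.normSq_eq_norm_sq, RCLike.norm_conj]
  rw [h1, dotProduct_sum, h2]
  exact (norm_sum_le _ _).trans (Finset.sum_le_sum fun k _ => hb _)

theorem rk_posSemidef (v : (Site L → Fin d) → ℂ) :
    (Matrix.vecMulVec v (star v) : TorOp d L).PosSemidef := Matrix.posSemidef_vecMulVec_self_star v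

theorem trace_rk (v : (Site L → Fin d) → ℂ) :
    (Matrix.vecMulVec v (star v) : TorOp d L).trace.re = normSq v := by
  rw [Matrix.trace, Complex.re_sum]
  unfold normSq
  refine Finset.sum_congr rfl fun s _ => ?_
  rw [Matrix.diag_apply, Matrix.vecMulVec_apply, Pi.star_apply, Complex.star_def,
    Complex.mul_conj, Complex.ofReal_re, Complex.normSq_eq_norm_sq]

theorem dual_markov {G : TorOp (d * d) L} (hG : IsMarkov G) {s : ℝ} (hs : 0 ≤ s)
    {b : (Site L → Fin (d * d)) → ℂ} (hb : b ∈ Dual d L) :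
    b ᵥ* NormedSpace.exp ((s : ℂ) • G) ∈ Dual d L := by
  intro v
  obtain ⟨Y, hY, htr, hvec⟩ := hG s hs _ (rk_posSemidef v)
  rw [← Matrix.dotProduct_mulVec, ← vec_rk, ← hvec]
  refine (dual_pos hb hY).trans ?_
  rw [htr, trace_rk]

theorem normSq_rk (v w : (Site L → Fin d) → ℂ) : normSq (rk v w) = normSq v * normSq w := by
  unfold rk
  rw [stack_eq, normSq_stack]
  congr 1
  unfold normSq
  simp

theorem nr_rk (v : (Site L → Fin d) → ℂ) : nr (rk v v) = normSq v := by
  have h := nr_sq (rk v v)
  rw [normSq_rk, ← nr_sq v] at h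
  have h2 : nr (rk v v) = nr v ^ 2 := by
    have h3 : nr (rk v v) ^ 2 = (nr v ^ 2) ^ 2 := by rw [h]; ring
    exact (pow_left_inj₀ (nr_nonneg _) (by positivity) two_ne_zero).1 h3
  rw [h2, nr_sq]

theorem ip_dot {S : Type*} [Fintype S] (x y : S → ℂ) : ip x y = (fun s => conj (x s)) ⬝ᵥ y := rfl

theorem dual_ip {x : (Site L → Fin (d * d)) → ℂ} (hx : nr x ≤ 1) :
    (fun s => conj (x s)) ∈ Dual d L := by
  intro v
  rw [← ip_dot]
  refine (ip_le x (rk v v)).trans ?_
  rw [nr_rk]
  have h0 : 0 ≤ normSq v := by unfold normSq; positivity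
  exact mul_le_of_le_one_left h0 hx

end Pool.Agent.Helper66.FD
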