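import Pool.Agent.Helper66.FD.Defs

/-!
Local superoperators on vectors of operators of rank one.
-/

set_option autoImplicit false
set_option linter.unusedSectionVars false

open scoped BigOperators Matrix ComplexConjugate ComplexOrder
open Finset Pool.Agent.TH235.PP Pool.Agent.Results.MP_953b23_mp.OverlapBoosting
  Pool.Agent.Helper99.PE

namespace Pool.Agent.Helper66.FD

variable {L d R : ℕ} [NeZero L]

/-- the vector of the operator `|v⟩⟨w|` -/
noncomputable def rk {L d : ℕ} (v w : (Site L → Fin d) → ℂ) : (Site L → Fin (d * d)) → ℂ :=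
  stack v fun s => conj (w s)

theorem vec_rk (v w : (Site L → Fin d) → ℂ) :
    vec (Matrix.vecMulVec v (star w)) = rk v w := rfl

theorem rk_apply (v w : (Site L → Fin d) → ℂ) (s t : Site L → Fin d) :
    rk v w (fun x => finProdFinEquiv (s x, t x)) = v s * conj (w t) := by
  simp [rk, stack]

theorem term_pos {A : BoxOp d R} {u : Site L} {s t : Site L → Fin d}
    (hc : ∀ w, (∀ x : Fin R × Fin R, sh u x ≠ w) → s w = t w) :
    term A u s t = A (fun x => s (sh u x)) (fun x => t (sh u x)) := by
  unfold term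
  exact if_pos hc

theorem term_neg {A : BoxOp d R} {u : Site L} {s t : Site L → Fin d}
    (hc : ¬ ∀ w, (∀ x : Fin R × Fin R, sh u x ≠ w) → s w = t w) :
    term A u s t = 0 := by
  unfold term
  exact if_neg hc

open Classical in
theorem term_mulVec (A : BoxOp d R) (u : Site L) (v : (Site L → Fin d) → ℂ) (s : Site L → Fin d) :
    (term A u *ᵥ v) s = ∑ t : Site L → Fin d,
      (if ∀ w, (∀ x : Fin R × Fin R, sh u x ≠ w) → s w = t w then
        A (fun x => s (sh u x)) (fun x => t (sh u x)) * v t else 0) := by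
  unfold Matrix.mulVec dotProduct
  refine Finset.sum_congr rfl fun t _ => ?_
  change term A u s t * v t = _
  by_cases hc : ∀ w, (∀ x : Fin R × Fin R, sh u x ≠ w) → s w = t w
  · rw [if_pos hc, term_pos hc]
  · rw [if_neg hc, term_neg hc, zero_mul]

theorem ext_double {f g : (Site L → Fin (d * d)) → ℂ}
    (h : ∀ s t : Site L → Fin d, f (fun x => finProdFinEquiv (s x, t x)) =
      g (fun x => finProdFinEquiv (s x, t x))) : f = g := by
  funext s
  have h1 := h (fun x => (finProdFinEquiv.symm (s x)).1) (fun x => (finProdFinEquiv.symm (s x)).2)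
  have h2 : (fun x => finProdFinEquiv ((finProdFinEquiv.symm (s x)).1,
      (finProdFinEquiv.symm (s x)).2)) = s := by
    funext x
    exact Equiv.apply_symm_apply finProdFinEquiv (s x)
  rwa [h2] at h1

theorem term_sop_rk (A B : BoxOp d R) (u : Site L) (v w : (Site L → Fin d) → ℂ) :
    term (sop A B) u *ᵥ rk v w = rk (term A u *ᵥ v) (term B u *ᵥ w) := by
  classical
  apply ext_double
  intro s t
  rw [rk_apply, term_mulVec, term_mulVec, term_mulVec, sum_stack finProdFinEquiv, map_sum,
    Finset.sum_mul_sum, Finset.sum_comm]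
  refine Finset.sum_congr rfl fun s' _ => Finset.sum_congr rfl fun t' _ => ?_
  rw [rk_apply]
  have hiff : (∀ w, (∀ x : Fin R × Fin R, sh u x ≠ w) →
      (finProdFinEquiv (s w, t w) : Fin (d * d)) = finProdFinEquiv (s' w, t' w)) ↔
      (∀ w, (∀ x : Fin R × Fin R, sh u x ≠ w) → s w = s' w) ∧
      (∀ w, (∀ x : Fin R × Fin R, sh u x ≠ w) → t w = t' w) := by
    simp only [EmbeddingLike.apply_eq_iff_eq, Prod.mk.injEq]
    exact ⟨fun h => ⟨fun w hw => (h w hw).1, fun w hw => (h w hw).2⟩,
      fun h w hw => ⟨h.1 w hw, h.2 w hw⟩⟩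
  by_cases h1 : ∀ w, (∀ x : Fin R × Fin R, sh u x ≠ w) → s w = s' w
  · by_cases h2 : ∀ w, (∀ x : Fin R × Fin R, sh u x ≠ w) → t w = t' w
    · rw [if_pos (hiff.2 ⟨h1, h2⟩), if_pos h1, if_pos h2]
      unfold sop
      simp only [Equiv.symm_apply_apply, map_mul]
      ring
    · rw [if_neg (fun h => h2 (hiff.1 h).2), if_neg h2]
      simp
  · rw [if_neg (fun h => h1 (hiff.1 h).1), if_neg h1]
    simp

theorem term_sum {q : ℕ} (f : Fin q → BoxOp d R) (u : Site L) :
    term (∑ j, f j) u = ∑ j, term (f j) u := by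
  classical
  ext s t
  rw [Matrix.sum_apply]
  by_cases hc : ∀ w, (∀ x : Fin R × Fin R, sh u x ≠ w) → s w = t w
  · rw [term_pos hc, Matrix.sum_apply]
    exact Finset.sum_congr rfl fun j _ => (term_pos hc).symm
  · rw [term_neg hc]
    exact (Finset.sum_eq_zero fun j _ => term_neg hc).symm

end Pool.Agent.Helper66.FD
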