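import Pool.Agent.Helper66.FD.Dual

/-!
A norm on the vectors of operators in which positive trace preserving maps are contractions.
-/

set_option autoImplicit false
set_option linter.unusedSectionVars false

open scoped BigOperators Matrix ComplexConjugate ComplexOrder ENNReal
open Finset Pool.Agent.TH235.PP Pool.Agent.Results.MP_953b23_mp.OverlapBoosting
  Pool.Agent.Helper99.PE

namespace Pool.Agent.Helper66.FD

variable {L d R : ℕ} [NeZero L]

/-- the vectors of operators, with another norm -/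
def TV (d L : ℕ) : Type := (Site L → Fin (d * d)) → ℂ

instance : AddCommGroup (TV d L) := inferInstanceAs (AddCommGroup ((Site L → Fin (d * d)) → ℂ))
instance : Module ℂ (TV d L) := inferInstanceAs (Module ℂ ((Site L → Fin (d * d)) → ℂ))
instance : FiniteDimensional ℂ (TV d L) :=
  inferInstanceAs (FiniteDimensional ℂ ((Site L → Fin (d * d)) → ℂ))

/-- a vector of an operator as an element of the normed space -/
def tv (x : (Site L → Fin (d * d)) → ℂ) : TV d L := x

/-- and back -/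
def vt (x : TV d L) : (Site L → Fin (d * d)) → ℂ := x

theorem vt_tv (x : (Site L → Fin (d * d)) → ℂ) : vt (tv x) = x := rfl

theorem tv_sub (x y : (Site L → Fin (d * d)) → ℂ) : tv (x - y) = tv x - tv y := rfl

theorem tv_add (x y : (Site L → Fin (d * d)) → ℂ) : tv (x + y) = tv x + tv y := rfl

theorem dual_bdd (x : (Site L → Fin (d * d)) → ℂ) :
    BddAbove (Set.range fun b : Dual d L => ‖b.1 ⬝ᵥ x‖) := by
  refine ⟨∑ s, 2 * ‖x s‖, ?_⟩
  rintro _ ⟨b, rfl⟩
  refine (norm_sum_le _ _).trans (Finset.sum_le_sum fun s _ => ?_)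
  rw [norm_mul]
  exact mul_le_mul_of_nonneg_right (dual_entry b.2 s) (norm_nonneg _)

/-- the evaluation of the functionals -/
noncomputable def ev (d L : ℕ) [NeZero L] : TV d L →ₗ[ℂ] lp (fun _ : Dual d L => ℂ) ∞ where
  toFun x := ⟨fun b => b.1 ⬝ᵥ vt x, memℓp_infty (dual_bdd (vt x))⟩
  map_add' x y := by
    ext b
    exact dotProduct_add b.1 (vt x) (vt y)
  map_smul' c x := by
    ext b
    exact dotProduct_smul c b.1 (vt x)

theorem ev_apply (x : TV d L) (b : Dual d L) :
    (ev d L x : ∀ _ : Dual d L, ℂ) b = b.1 ⬝ᵥ vt x := rfl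

theorem ip_self (x : (Site L → Fin (d * d)) → ℂ) : ip x x = ((nr x ^ 2 : ℝ) : ℂ) := by
  rw [nr_sq]
  unfold ip normSq
  rw [Complex.ofReal_sum]
  refine Finset.sum_congr rfl fun s _ => ?_
  rw [← Complex.normSq_eq_conj_mul_self, Complex.normSq_eq_norm_sq]

theorem nr_le_ev (x : (Site L → Fin (d * d)) → ℂ) : nr x ≤ ‖ev d L (tv x)‖ := by
  rcases eq_or_lt_of_le (nr_nonneg x) with h | h
  · rw [← h]
    exact norm_nonneg _
  · set c : ℝ := nr x with hc
    have h1 : nr (((c⁻¹ : ℝ) : ℂ) • x) ≤ 1 := by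
      rw [nr_smul, Complex.norm_real, Real.norm_of_nonneg (by positivity), ← hc,
        inv_mul_cancel₀ h.ne']
    have h2 := lp.norm_apply_le_norm (ENNReal.top_ne_zero) (ev d L (tv x)) ⟨_, dual_ip h1⟩
    rw [ev_apply, vt_tv] at h2
    have h3 : (fun s => conj ((((c⁻¹ : ℝ) : ℂ) • x) s)) ⬝ᵥ x = (c : ℂ) := by
      rw [← ip_dot]
      have h4 : ip (((c⁻¹ : ℝ) : ℂ) • x) x = ((c⁻¹ : ℝ) : ℂ) * ip x x := by
        unfold ip
        rw [Finset.mul_sum]
        refine Finset.sum_congr rfl fun s _ => ?_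
        rw [Pi.smul_apply, smul_eq_mul, map_mul, Complex.conj_ofReal, mul_assoc]
      rw [h4, ip_self, ← hc, ← Complex.ofReal_mul]
      congr 1
      field_simp
    rw [h3, Complex.norm_real, Real.norm_of_nonneg h.le] at h2
    exact h2

theorem ev_inj : Function.Injective (ev d L) := by
  rw [injective_iff_map_eq_zero]
  intro x hx
  have h := nr_le_ev (vt x)
  have h0 : ev d L (tv (vt x)) = 0 := hx
  rw [h0, norm_zero] at h
  have h1 : nr (vt x) = 0 := le_antisymm h (nr_nonneg _)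
  unfold nr at h1
  rw [norm_eq_zero] at h1
  exact congrArg WithLp.ofLp h1

noncomputable instance : NormedAddCommGroup (TV d L) :=
  NormedAddCommGroup.induced (TV d L) (lp (fun _ : Dual d L => ℂ) ∞) (ev d L) ev_inj

noncomputable instance : NormedSpace ℂ (TV d L) :=
  NormedSpace.induced ℂ (TV d L) (lp (fun _ : Dual d L => ℂ) ∞) (ev d L)

theorem norm_def (x : TV d L) : ‖x‖ = ‖ev d L x‖ := rfl

theorem nr_le (x : (Site L → Fin (d * d)) → ℂ) : nr x ≤ ‖tv x‖ := nr_le_ev x

theorem le_norm (x : (Site L → Fin (d * d)) → ℂ) {b : (Site L → Fin (d * d)) → ℂ}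
    (hb : b ∈ Dual d L) : ‖b ⬝ᵥ x‖ ≤ ‖tv x‖ :=
  lp.norm_apply_le_norm (ENNReal.top_ne_zero) (ev d L (tv x)) ⟨b, hb⟩

theorem norm_le (x : (Site L → Fin (d * d)) → ℂ) {C : ℝ} (hC : 0 ≤ C)
    (h : ∀ b ∈ Dual d L, ‖b ⬝ᵥ x‖ ≤ C) : ‖tv x‖ ≤ C :=
  lp.norm_le_of_forall_le hC fun b => h b.1 b.2

/-- matrices act on the vectors of operators -/
noncomputable def act (d L : ℕ) [NeZero L] : TorOp (d * d) L →+* (TV d L →L[ℂ] TV d L) where
  toFun S := LinearMap.toContinuousLinearMap (E := TV d L) (F' := TV d L) (Matrix.mulVecLin S)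
  map_one' := by
    ext x
    exact Matrix.one_mulVec (vt x)
  map_mul' S T := by
    ext x
    exact (Matrix.mulVec_mulVec (vt x) S T).symm
  map_zero' := by
    ext x
    exact Matrix.zero_mulVec (vt x)
  map_add' S T := by
    ext x
    exact Matrix.add_mulVec S T (vt x)

theorem act_apply (S : TorOp (d * d) L) (x : (Site L → Fin (d * d)) → ℂ) :
    act d L S (tv x) = tv (S *ᵥ x) := rfl

theorem act_smul (c : ℂ) (S : TorOp (d * d) L) : act d L (c • S) = c • act d L S := by
  ext x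
  exact Matrix.smul_mulVec c S (vt x)

theorem act_norm {S : TorOp (d * d) L} (h : ∀ b ∈ Dual d L, b ᵥ* S ∈ Dual d L) :
    ‖act d L S‖ ≤ 1 := by
  refine ContinuousLinearMap.opNorm_le_bound _ zero_le_one fun x => ?_
  rw [one_mul]
  obtain ⟨x, rfl⟩ : ∃ y, tv y = x := ⟨vt x, rfl⟩
  rw [act_apply]
  refine norm_le _ (norm_nonneg _) fun b hb => ?_
  rw [Matrix.dotProduct_mulVec]
  exact le_norm x (h b hb)

/-- `act` as a linear map -/
noncomputable def actL (d L : ℕ) [NeZero L] : TorOp (d * d) L →ₗ[ℂ] (TV d L →L[ℂ] TV d L) where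
  toFun := act d L
  map_add' := map_add (act d L)
  map_smul' := act_smul

open scoped Matrix.Norms.L2Operator in
theorem act_exp (S : TorOp (d * d) L) :
    act d L (NormedSpace.exp S) = NormedSpace.exp (act d L S) := by
  have hc : Continuous (act d L) := (actL d L).continuous_of_finiteDimensional
  let _ : NormedAlgebra ℚ (TorOp (d * d) L) := NormedAlgebra.restrictScalars ℚ ℂ _
  let _ : NormedAlgebra ℚ (TV d L →L[ℂ] TV d L) := NormedAlgebra.restrictScalars ℚ ℂ _
  exact NormedSpace.map_exp (act d L) hc S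

theorem norm_rk (v : (Site L → Fin d) → ℂ) : ‖tv (rk v v)‖ ≤ normSq v :=
  norm_le _ (by unfold normSq; positivity) fun b hb => hb v

theorem rk_zero_left (w : (Site L → Fin d) → ℂ) : rk 0 w = 0 := by
  apply ext_double
  intro s t
  rw [rk_apply]
  simp

theorem rk_zero_right (v : (Site L → Fin d) → ℂ) : rk v 0 = 0 := by
  apply ext_double
  intro s t
  rw [rk_apply]
  simp

theorem eq_zero_of_nr {S : Type*} [Fintype S] [DecidableEq S] {v : S → ℂ} (h : nr v = 0) :
    v = 0 := by
  unfold nr at h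
  rw [norm_eq_zero] at h
  exact congrArg WithLp.ofLp h

theorem norm_rk_nr (v w : (Site L → Fin d) → ℂ) : ‖tv (rk v w)‖ ≤ 2 * (nr v * nr w) := by
  refine norm_le _ (mul_nonneg zero_le_two (mul_nonneg (nr_nonneg _) (nr_nonneg _)))
    fun b hb => ?_
  rcases eq_or_lt_of_le (nr_nonneg v) with hv | hv
  · rw [eq_zero_of_nr hv.symm, rk_zero_left, dotProduct_zero, norm_zero]
    exact mul_nonneg zero_le_two (mul_nonneg (nr_nonneg _) (nr_nonneg _))
  rcases eq_or_lt_of_le (nr_nonneg w) with hw | hw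
  · rw [eq_zero_of_nr hw.symm, rk_zero_right, dotProduct_zero, norm_zero]
    exact mul_nonneg zero_le_two (mul_nonneg (nr_nonneg _) (nr_nonneg _))
  set l : ℝ := Real.sqrt (nr w / nr v) with hl
  have hl0 : 0 < l := Real.sqrt_pos.2 (by positivity)
  have hl2 : l ^ 2 = nr w / nr v := Real.sq_sqrt (by positivity)
  have h1 : rk v w = rk ((l : ℂ) • v) (((l⁻¹ : ℝ) : ℂ) • w) := by
    apply ext_double
    intro s t
    rw [rk_apply, rk_apply]
    simp only [Pi.smul_apply, smul_eq_mul, map_mul, Complex.conj_ofReal]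
    have h2 : (l : ℂ) * ((l⁻¹ : ℝ) : ℂ) = 1 := by
      rw [← Complex.ofReal_mul, mul_inv_cancel₀ hl0.ne', Complex.ofReal_one]
    linear_combination (-(v s * conj (w t))) * h2
  rw [h1]
  refine (dual_polar hb _ _).trans (le_of_eq ?_)
  rw [← nr_sq, ← nr_sq, nr_smul, nr_smul, Complex.norm_real, Complex.norm_real,
    Real.norm_of_nonneg hl0.le, Real.norm_of_nonneg (by positivity), mul_pow, mul_pow, inv_pow, hl2]
  field_simp
  ring

end Pool.Agent.Helper66.FD
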