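import Mathlib

/-! Elementary estimates. -/

set_option autoImplicit false

namespace Pool.Agent.Helper66.FD

theorem exp_four_ge : (30 : ℝ) ≤ Real.exp 4 := by
  have h1 : (2.7 : ℝ) ≤ Real.exp 1 := by linarith [Real.exp_one_gt_d9]
  have h2 : Real.exp 4 = Real.exp 1 ^ 4 := by
    rw [← Real.exp_nat_mul]; norm_num
  rw [h2]
  calc (30 : ℝ) ≤ 2.7 ^ 4 := by norm_num
    _ ≤ Real.exp 1 ^ 4 := pow_le_pow_left₀ (by norm_num) h1 4

theorem exp_neg_three_le : Real.exp (-3) ≤ 1 / 8 := by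
  have h1 : (2.7 : ℝ) ≤ Real.exp 1 := by linarith [Real.exp_one_gt_d9]
  have h2 : Real.exp 3 = Real.exp 1 ^ 3 := by
    rw [← Real.exp_nat_mul]; norm_num
  have h3 : (8 : ℝ) ≤ Real.exp 3 := by
    rw [h2]
    calc (8 : ℝ) ≤ 2.7 ^ 3 := by norm_num
      _ ≤ Real.exp 1 ^ 3 := pow_le_pow_left₀ (by norm_num) h1 3
  rw [Real.exp_neg, one_div]
  exact inv_anti₀ (by norm_num) h3

/-- the total error -/
theorem num_err {C0 l m : ℝ} (hC0 : 1 ≤ C0) (hl : 1 ≤ l) (hm0 : 0 ≤ m) (hm : m ≤ C0 * l) :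
    6 * Real.exp (-((C0 + 4) * l)) + 2 * m * Real.exp (-(2 * (C0 * l) + 3)) ≤
      Real.exp (-(C0 * l)) / 2 := by
  have h1 : Real.exp (-((C0 + 4) * l)) = Real.exp (-(C0 * l)) * Real.exp (-(4 * l)) := by
    rw [← Real.exp_add]; congr 1; ring
  have h2 : Real.exp (-(4 * l)) ≤ 1 / 30 := by
    have h3 : Real.exp (-(4 * l)) ≤ Real.exp (-4) := Real.exp_le_exp.2 (by linarith)
    refine h3.trans ?_
    rw [Real.exp_neg, one_div]
    exact inv_anti₀ (by norm_num) exp_four_ge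
  have h4 : Real.exp (-(2 * (C0 * l) + 3)) =
      Real.exp (-(C0 * l)) * Real.exp (-(C0 * l)) * Real.exp (-3) := by
    rw [← Real.exp_add, ← Real.exp_add]; congr 1; ring
  have h5 : C0 * l * Real.exp (-(C0 * l)) ≤ 1 := by
    have h6 : C0 * l ≤ Real.exp (C0 * l) := by linarith [Real.add_one_le_exp (C0 * l)]
    calc C0 * l * Real.exp (-(C0 * l)) ≤ Real.exp (C0 * l) * Real.exp (-(C0 * l)) :=
          mul_le_mul_of_nonneg_right h6 (Real.exp_pos _).le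
      _ = 1 := by rw [← Real.exp_add, add_neg_cancel, Real.exp_zero]
  have h7 : m * Real.exp (-(C0 * l)) ≤ 1 :=
    (mul_le_mul_of_nonneg_right hm (Real.exp_pos _).le).trans h5
  rw [h1, h4]
  set x := Real.exp (-(C0 * l)) with hx
  have hx0 : 0 < x := Real.exp_pos _
  have h8 : 2 * m * (x * x * Real.exp (-3)) ≤ x * (1 / 4) := by
    have h9 : 2 * m * (x * x * Real.exp (-3)) = 2 * x * ((m * x) * Real.exp (-3)) := by ring
    rw [h9]
    have h10 : (m * x) * Real.exp (-3) ≤ 1 * (1 / 8) :=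
      mul_le_mul h7 exp_neg_three_le (Real.exp_pos _).le zero_le_one
    have h11 := mul_le_mul_of_nonneg_left h10 (by positivity : 0 ≤ 2 * x)
    linarith
  have h12 : 6 * (x * Real.exp (-(4 * l))) ≤ x * (1 / 5) := by
    have h13 := mul_le_mul_of_nonneg_left h2 hx0.le
    linarith
  linarith

/-- the size of the labels -/
theorem num_U {C0 l L : ℝ} {d R : ℕ} (hC0 : 1 ≤ C0) (hl : 1 ≤ l) (hL : 1 ≤ L)
    (hlog : Real.log L ≤ l) (hR : (R : ℝ) ≤ C0 * l) :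
    30 * (C0 * l * L ^ 2 + 1) ^ 2 / Real.exp (-(2 * (C0 * l) + 3)) *
      (((d * d) ^ (R * R) * (d * d) ^ (R * R) : ℕ) : ℝ) ≤
      Real.exp ((11 + 4 * C0 + 4 * d * C0 ^ 2) * l ^ 2) := by
  have h1 : C0 * l * L ^ 2 + 1 ≤ Real.exp ((C0 + 2) * l) := by
    have h2 : C0 * l + 1 ≤ Real.exp (C0 * l) := Real.add_one_le_exp _
    have h3 : L ^ 2 ≤ Real.exp (2 * l) := by
      have h4 : L ≤ Real.exp l := by
        rw [← Real.log_le_iff_le_exp (by linarith)]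
        exact hlog
      calc L ^ 2 ≤ (Real.exp l) ^ 2 := pow_le_pow_left₀ (by linarith) h4 2
        _ = Real.exp (2 * l) := by rw [← Real.exp_nat_mul]; norm_num
    have h5 : 1 ≤ L ^ 2 := one_le_pow₀ hL
    calc C0 * l * L ^ 2 + 1 ≤ (C0 * l + 1) * L ^ 2 := by linarith
      _ ≤ Real.exp (C0 * l) * Real.exp (2 * l) :=
          mul_le_mul h2 h3 (by positivity) (Real.exp_pos _).le
      _ = Real.exp ((C0 + 2) * l) := by rw [← Real.exp_add]; congr 1; ring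
  have h2 : (C0 * l * L ^ 2 + 1) ^ 2 ≤ Real.exp (2 * ((C0 + 2) * l)) := by
    calc (C0 * l * L ^ 2 + 1) ^ 2 ≤ (Real.exp ((C0 + 2) * l)) ^ 2 :=
          pow_le_pow_left₀ (by positivity) h1 2
      _ = Real.exp (2 * ((C0 + 2) * l)) := by rw [← Real.exp_nat_mul]; norm_num
  have h3 : (((d * d) ^ (R * R) * (d * d) ^ (R * R) : ℕ) : ℝ) ≤ Real.exp (4 * d * (C0 * l) ^ 2) := by
    have h4 : (d : ℝ) ≤ Real.exp d := by linarith [Real.add_one_le_exp (d : ℝ)]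
    have h5 : (((d * d) ^ (R * R) * (d * d) ^ (R * R) : ℕ) : ℝ) = (d : ℝ) ^ (4 * (R * R)) := by
      push_cast
      ring
    rw [h5]
    calc (d : ℝ) ^ (4 * (R * R)) ≤ (Real.exp d) ^ (4 * (R * R)) :=
          pow_le_pow_left₀ (Nat.cast_nonneg _) h4 _
      _ = Real.exp (((4 * (R * R) : ℕ) : ℝ) * d) := (Real.exp_nat_mul _ _).symm
      _ ≤ Real.exp (4 * d * (C0 * l) ^ 2) := by
          apply Real.exp_le_exp.2
          push_cast
          have h6 : (R : ℝ) * R ≤ (C0 * l) ^ 2 := by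
            have h7 := pow_le_pow_left₀ (Nat.cast_nonneg R) hR 2
            linarith [sq (R : ℝ)]
          have h8 := mul_le_mul_of_nonneg_left h6 (by positivity : (0 : ℝ) ≤ 4 * d)
          linarith
  rw [div_eq_mul_inv, ← Real.exp_neg, neg_neg]
  have hll : l ≤ l ^ 2 := by nlinarith
  calc 30 * (C0 * l * L ^ 2 + 1) ^ 2 * Real.exp (2 * (C0 * l) + 3) *
        (((d * d) ^ (R * R) * (d * d) ^ (R * R) : ℕ) : ℝ)
      ≤ Real.exp 4 * Real.exp (2 * ((C0 + 2) * l)) * Real.exp (2 * (C0 * l) + 3) *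
        Real.exp (4 * d * (C0 * l) ^ 2) := by
        refine mul_le_mul (mul_le_mul_of_nonneg_right (mul_le_mul exp_four_ge h2 (by positivity)
          (Real.exp_pos _).le) (Real.exp_pos _).le) h3 (Nat.cast_nonneg _) (by positivity)
    _ = Real.exp (4 + 2 * ((C0 + 2) * l) + (2 * (C0 * l) + 3) + 4 * d * (C0 * l) ^ 2) := by
        rw [← Real.exp_add, ← Real.exp_add, ← Real.exp_add]
    _ ≤ _ := by
        apply Real.exp_le_exp.2
        have h9 : C0 * l ≤ C0 * l ^ 2 := mul_le_mul_of_nonneg_left hll (by linarith)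
        have h10 : 1 ≤ l ^ 2 := one_le_pow₀ hl
        nlinarith

/-- the number of uses of a term -/
theorem num_rho {C0 l L : ℝ} (hC0 : 1 ≤ C0) (hl : 1 ≤ l) (hL : 1 ≤ L) (hlog : Real.log L ≤ l) :
    13 * (C0 * l) + Real.log (36 * L ^ 2 / Real.exp (-(2 * (C0 * l) + 3))) + 1 ≤
      (15 * C0 + 10) * l := by
  have h1 : Real.log (36 * L ^ 2 / Real.exp (-(2 * (C0 * l) + 3))) =
      Real.log 36 + 2 * Real.log L + (2 * (C0 * l) + 3) := by
    rw [div_eq_mul_inv, ← Real.exp_neg, neg_neg, Real.log_mul (by positivity) (Real.exp_pos _).ne',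
      Real.log_mul (by norm_num) (by positivity), Real.log_exp, Real.log_pow]
    push_cast
    ring
  have h2 : Real.log 36 ≤ 4 := by
    have h3 : (36 : ℝ) ≤ Real.exp 4 := by
      have h1 : (2.7 : ℝ) ≤ Real.exp 1 := by linarith [Real.exp_one_gt_d9]
      have h2 : Real.exp 4 = Real.exp 1 ^ 4 := by
        rw [← Real.exp_nat_mul]; norm_num
      rw [h2]
      calc (36 : ℝ) ≤ 2.7 ^ 4 := by norm_num
        _ ≤ Real.exp 1 ^ 4 := pow_le_pow_left₀ (by norm_num) h1 4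
    rw [← Real.log_exp 4]
    exact Real.log_le_log (by norm_num) h3
  rw [h1]
  nlinarith

/-- the total size of the bond dimension -/
theorem num_bond {C0 l m K1 K2 R : ℝ} (hC0 : 1 ≤ C0) (hl : 1 ≤ l) (hm0 : 0 ≤ m)
    (hm : m ≤ C0 * l) (hK1 : 0 ≤ K1) (hK2 : 0 ≤ K2) (hR0 : 0 ≤ R) (hR : R ≤ C0 * l) :
    m * (K1 * l ^ 2 * (K2 * l) * R ^ 2) ≤ K1 * K2 * C0 ^ 3 * l ^ 6 := by
  have h1 : R ^ 2 ≤ (C0 * l) ^ 2 := pow_le_pow_left₀ hR0 hR 2
  have h2 : K1 * l ^ 2 * (K2 * l) * R ^ 2 ≤ K1 * l ^ 2 * (K2 * l) * (C0 * l) ^ 2 :=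
    mul_le_mul_of_nonneg_left h1 (by positivity)
  calc m * (K1 * l ^ 2 * (K2 * l) * R ^ 2) ≤ C0 * l * (K1 * l ^ 2 * (K2 * l) * (C0 * l) ^ 2) :=
        mul_le_mul hm h2 (by positivity) (by positivity)
    _ = K1 * K2 * C0 ^ 3 * l ^ 6 := by ring

end Pool.Agent.Helper66.FD
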