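import Pool.Agent.Helper66.FD.Nrm
import Pool.Agent.TH235.PP.Trunc

/-!
Truncated expansion of a Markovian evolution.
-/

set_option autoImplicit false
set_option linter.unusedSectionVars false

open scoped BigOperators Matrix ComplexConjugate ComplexOrder ENNReal
open Finset Pool.Agent.TH235.PP Pool.Agent.Results.MP_953b23_mp.OverlapBoosting
  Pool.Agent.Helper99.PE

namespace Pool.Agent.Helper66.FD

theorem exp_quad {𝔸 : Type*} [NormedRing 𝔸] [NormOneClass 𝔸] [NormedAlgebra ℂ 𝔸]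
    [CompleteSpace 𝔸] (x : 𝔸) (hx : ‖x‖ ≤ 1) : ‖NormedSpace.exp x - 1 - x‖ ≤ ‖x‖ ^ 2 := by
  have h1 := NormedSpace.exp_series_hasSum_exp' (𝕂 := ℂ) x
  have h2 := (hasSum_nat_add_iff' 2).2 h1
  have h3 := NormedSpace.exp_series_hasSum_exp' (𝕂 := ℝ) ‖x‖
  have h4 := (hasSum_nat_add_iff' 2).2 h3
  have h5 := HasSum.norm_le_of_bounded h2 h4 (fun n => by
    rw [norm_smul, smul_eq_mul, norm_inv, Complex.norm_natCast]
    exact mul_le_mul_of_nonneg_left (norm_pow_le _ _) (by positivity))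
  simp only [Finset.sum_range_succ, Finset.sum_range_zero, Nat.factorial_zero, Nat.factorial_one,
    Nat.cast_one, inv_one, pow_zero, pow_one, one_smul, zero_add] at h5
  rw [← Real.exp_eq_exp_ℝ] at h5
  have h6 := exp_bd (norm_nonneg x) hx
  calc ‖NormedSpace.exp x - 1 - x‖ = ‖NormedSpace.exp x - (1 + x)‖ := by congr 1; abel
    _ ≤ Real.exp ‖x‖ - (1 + ‖x‖) := h5
    _ ≤ ‖x‖ ^ 2 := by linarith

theorem op_map' {R S : Type*} [Ring R] [Ring S] (f : R →+* S) {n : ℕ} (z : Fin n → R) :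
    f (op z) = op fun i => f (z i) := by
  unfold op
  rw [map_list_prod, List.map_ofFn]
  rfl

theorem KT_map {R S : Type*} [Ring R] [Ring S] (f : R →+* S) {M N : ℕ} (y : Fin N → R) (r : ℕ) :
    f (KT M y r) = KT M (fun b => f (y b)) r := by
  unfold KT
  rw [map_sum]
  refine Finset.sum_congr rfl fun F _ => ?_
  by_cases h : ∀ b, cnt F b ≤ r
  · rw [if_pos h, if_pos h]
    unfold PF pr
    rw [op_map']
    congr 1
    funext t
    rw [op_map']
    congr 1
    funext b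
    beta_reduce
    split_ifs
    · rfl
    · exact map_one f
  · rw [if_neg h, if_neg h, map_zero]

variable {L d R : ℕ} [NeZero L]

theorem nontrivial_TV (hd : 0 < d) : Nontrivial (TV d L) := by
  have : Nonempty (Fin (d * d)) := ⟨⟨0, Nat.mul_pos hd hd⟩⟩
  have : Nonempty (Site L → Fin (d * d)) := inferInstance
  exact inferInstanceAs (Nontrivial ((Site L → Fin (d * d)) → ℂ))

/-- one Markovian step -/
theorem step_bound (hd : 0 < d) (hR : R ≤ L) {q : ℕ} {A B : Fin q → BoxOp d R}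
    (hn : Normalised A B) (hG : IsMarkov (gen A B L)) {s : ℝ} (hs : 0 ≤ s) (M r : ℕ) (hM0 : 0 < M)
    (e : Fin (L ^ 2) ≃ Site L) (h1 : ((L ^ 2 : ℕ) : ℝ) * (s / M) ≤ 1 / 4)
    (h2 : 2 * M * (((L ^ 2 : ℕ) : ℝ) * (s / M)) ^ 2 ≤ 1)
    (h3 : ((L ^ 2 : ℕ) : ℝ) * Real.exp (13 * s - r) ≤ 1) :
    ‖act d L (KT M (fun b => ((s / M : ℝ) : ℂ) • term (∑ j, sop (A j) (B j)) (e b)) r) -
      act d L (NormedSpace.exp ((s : ℂ) • gen A B L))‖ ≤
      18 * (((L ^ 2 : ℕ) : ℝ) * Real.exp (13 * s - r)) +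
        14 * (M * (((L ^ 2 : ℕ) : ℝ) * (s / M)) ^ 2) := by
  have := nontrivial_TV (L := L) hd
  have hM : (0 : ℝ) < M := by exact_mod_cast hM0
  set τ : ℝ := s / M with hτ
  have hτ0 : 0 ≤ τ := by positivity
  have hMτ : M * τ = s := by rw [hτ]; field_simp
  set l : BoxOp (d * d) R := ∑ j, sop (A j) (B j) with hl
  set y : Fin (L ^ 2) → (TV d L →L[ℂ] TV d L) := fun b => act d L ((τ : ℂ) • term l (e b)) with hy
  have hy1 : ∀ b, ‖y b‖ ≤ τ := by
    intro b
    rw [hy]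
    simp only []
    rw [act_smul, norm_smul, Complex.norm_real, Real.norm_of_nonneg hτ0]
    exact mul_le_of_le_one_right hτ0 (act_norm fun b' hb' => dual_term hR hn (e b) hb')
  set x : TV d L →L[ℂ] TV d L := act d L ((τ : ℂ) • gen A B L) with hx
  have hsum : ∑ b, y b = x := by
    rw [hy, hx]
    simp only []
    rw [← map_sum, ← Finset.smul_sum]
    congr 2
    unfold gen ham
    exact e.sum_comp (fun u => term l u)
  set N : ℝ := ((L ^ 2 : ℕ) : ℝ) with hN
  have hN0 : 0 ≤ N := Nat.cast_nonneg _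
  have hxn : ‖x‖ ≤ N * τ := by
    rw [← hsum]
    refine (norm_sum_le _ _).trans ((Finset.sum_le_sum fun b _ => hy1 b).trans ?_)
    rw [Finset.sum_const, card_univ, Fintype.card_fin, nsmul_eq_mul]
  have hx1 : ‖x‖ ≤ 1 := hxn.trans (by linarith)
  have hq : ‖NormedSpace.exp x - 1 - x‖ ≤ (N * τ) ^ 2 :=
    (exp_quad x hx1).trans (pow_le_pow_left₀ (norm_nonneg _) hxn 2)
  have hE : ‖NormedSpace.exp x‖ ≤ 1 := by
    rw [hx, ← act_exp]
    exact act_norm fun b hb => dual_markov hG hτ0 hb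
  set k : ℝ := (N * τ) ^ 2 with hk
  have hk0 : 0 ≤ k := by positivity
  have hg : ‖1 + ∑ b, y b‖ ≤ 1 + k := by
    rw [hsum]
    have h4 : 1 + x = NormedSpace.exp x - (NormedSpace.exp x - 1 - x) := by abel
    rw [h4]
    exact (norm_sub_le _ _).trans (add_le_add hE hq)
  have hN4 : ((L ^ 2 : ℕ) : ℝ) * τ ≤ 1 / 4 := h1
  have ht := trunc_bound (M := M) y τ (1 + k) hτ0 hy1 hg (by linarith) hN4 r h2
    (by rw [hMτ]; exact h3)
  rw [hMτ] at ht
  -- the power
  have hp : ‖(1 + ∑ b, y b) ^ M - NormedSpace.exp x ^ M‖ ≤ (1 + k) ^ M - 1 := by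
    have h4 := norm_pow_sub (NormedSpace.exp x) ((1 + ∑ b, y b) - NormedSpace.exp x) 1 k hE
      (by
        rw [hsum]
        have h5 : 1 + x - NormedSpace.exp x = -(NormedSpace.exp x - 1 - x) := by abel
        rw [h5, norm_neg]
        exact hq) M
    rw [add_sub_cancel, one_pow] at h4
    exact h4
  have hpow : NormedSpace.exp x ^ M = act d L (NormedSpace.exp ((s : ℂ) • gen A B L)) := by
    let _ : NormedAlgebra ℚ (TV d L →L[ℂ] TV d L) := NormedAlgebra.restrictScalars ℚ ℂ _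
    rw [act_exp, ← NormedSpace.exp_nsmul, hx, ← map_nsmul]
    congr 2
    rw [← Nat.cast_smul_eq_nsmul ℂ, smul_smul]
    congr 1
    rw [← hMτ]
    push_cast
    ring
  set u : ℝ := M * k with hu
  have hu0 : 0 ≤ u := by positivity
  have hu1 : u ≤ 1 := by
    have h4 : 2 * M * k ≤ 1 := h2
    rw [hu]; nlinarith
  have h1k : (1 + k) ^ M ≤ Real.exp u := by
    rw [hu, Real.exp_nat_mul]
    exact pow_le_pow_left₀ (by positivity) (by linarith [Real.add_one_le_exp k]) M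
  have hexp := exp_bd2 hu0 hu1
  have h1k3 : (1 + k) ^ M ≤ 3 := by linarith
  rw [KT_map, ← hpow]
  have h6 : ‖KT M y r - NormedSpace.exp x ^ M‖ ≤ (1 + k) ^ M *
      (6 * (N * Real.exp (13 * s - r)) + 4 * u) + ((1 + k) ^ M - 1) := by
    have h7 : KT M y r - NormedSpace.exp x ^ M = (KT M y r - (1 + ∑ b, y b) ^ M) +
        ((1 + ∑ b, y b) ^ M - NormedSpace.exp x ^ M) := by abel
    rw [h7]
    exact (norm_add_le _ _).trans (add_le_add ht hp)
  refine h6.trans ?_
  have h8 : (1 + k) ^ M * (6 * (N * Real.exp (13 * s - r)) + 4 * u) ≤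
      3 * (6 * (N * Real.exp (13 * s - r)) + 4 * u) :=
    mul_le_mul_of_nonneg_right h1k3 (by positivity)
  linarith

end Pool.Agent.Helper66.FD
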