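import Pool.Agent.Helper66.FD.Defs

/-!
Statement of the piece on Lindblad semigroups.
-/

set_option autoImplicit false
set_option linter.unusedSectionVars false

open scoped BigOperators Matrix ComplexConjugate ComplexOrder
open Finset Pool.Agent.TH235.PP Pool.Agent.Results.MP_953b23_mp.OverlapBoosting
  Pool.Agent.Helper99.PE

namespace Pool.Agent.Helper66.FD

/-- A generator in Lindblad form `X ↦ A X + X A^* + ∑ j, K j X (K j)^*` with
`A + A^* + ∑ j, (K j)^* K j = 0` defines a semigroup of positive trace preserving maps. -/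
def GKSL : Prop := ∀ (d L : ℕ) [NeZero L] (J : Type) [Fintype J] (A : TorOp d L)
  (K : J → TorOp d L) (G : TorOp (d * d) L), A + Aᴴ + ∑ j, (K j)ᴴ * K j = 0 →
  (∀ X : TorOp d L, G *ᵥ vec X = vec (A * X + X * Aᴴ + ∑ j, K j * X * (K j)ᴴ)) → IsMarkov G

end Pool.Agent.Helper66.FD
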